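import Pool.Agent.H63.TC.Stmts

/-!
# Project TC, module MON: Montel's theorem along ultrafilters
-/

set_option autoImplicit false

open Complex Metric Set Filter Topology

namespace Pool.Agent.H63.TC

/-- equi-Lipschitz functions which converge pointwise converge uniformly on compact sets -/
theorem mon_aux1 {N F ι : Type} [PseudoMetricSpace N] [NormedAddCommGroup F] {l : Filter ι}
    [l.NeBot] {f : ι → N → F} {g : N → F} {S : Set N} {C : ℝ} (hS : IsCompact S) (hC : 0 ≤ C)
    (hlip : ∀ n, ∀ x ∈ S, ∀ y ∈ S, dist (f n x) (f n y) ≤ C * dist x y)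
    (hpt : ∀ x ∈ S, Tendsto (fun n => f n x) l (𝓝 (g x))) : TendstoUniformlyOn f g l S := by
  have hg : ∀ x ∈ S, ∀ y ∈ S, dist (g x) (g y) ≤ C * dist x y := by
    intro x hx y hy
    exact le_of_tendsto ((hpt x hx).dist (hpt y hy)) (Eventually.of_forall fun n => hlip n x hx y hy)
  rw [Metric.tendstoUniformlyOn_iff]
  intro ε hε
  have hδ : 0 < ε / (3 * (C + 1)) := by positivity
  obtain ⟨t, htS, htf, hcov⟩ := hS.finite_cover_balls hδ
  have hev : ∀ᶠ n in l, ∀ x ∈ t, dist (f n x) (g x) < ε / 3 := by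
    rw [eventually_all_finite htf]
    intro x hx
    exact (hpt x (htS hx)).eventually (Metric.ball_mem_nhds _ (by positivity))
  filter_upwards [hev] with n hn x hx
  obtain ⟨y, hyt, hxy⟩ := mem_iUnion₂.mp (hcov hx)
  rw [mem_ball] at hxy
  have h1 := hg x hx y (htS hyt)
  have h2 := hlip n y (htS hyt) x hx
  have h3 := hn y hyt
  have h4 : C * dist x y ≤ C * (ε / (3 * (C + 1))) := mul_le_mul_of_nonneg_left hxy.le hC
  have h5 : C * (ε / (3 * (C + 1))) < ε / 3 := by
    rw [← mul_div_assoc, div_lt_div_iff₀ (by positivity) (by norm_num)]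
    nlinarith
  rw [dist_comm y x] at h2
  rw [dist_comm] at h3
  calc dist (g x) (f n x) ≤ dist (g x) (g y) + dist (g y) (f n y) + dist (f n y) (f n x) :=
        dist_triangle4 _ _ _ _
    _ < ε := by linarith

theorem mon (h1 : LihStmt) (h2 : CauStmt) : MonStmt := by
  intro V _ A l f hf hbd
  -- the pointwise limit
  have hlim : ∀ p, ∃ x : ℂ × ℂ, Tendsto (fun n => f n p) (l : Filter ℕ) (𝓝 x) := by
    intro p
    obtain ⟨M, hM⟩ := hbd {p} isCompact_singleton
    have hcomp : IsCompact (closedBall (0 : ℂ × ℂ) M) := isCompact_closedBall _ _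
    have hmem : closedBall (0 : ℂ × ℂ) M ∈ (l.map fun n => f n p : Ultrafilter (ℂ × ℂ)) := by
      rw [Ultrafilter.mem_map]
      filter_upwards with n
      simpa using hM n p rfl
    obtain ⟨x, -, hx⟩ := hcomp.ultrafilter_le_nhds _ (le_principal_iff.mpr hmem)
    exact ⟨x, hx⟩
  choose ξ hξ using hlim
  -- uniform convergence on sheet balls
  have hunif : ∀ p, TendstoUniformlyOn (fun n m => f n (A.sec p m)) (fun m => ξ (A.sec p m))
      (l : Filter ℕ) (closedBall (A.E p) (dd (A.E p) / 8)) := by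
    intro p
    have hd := A.dd_pos p
    set R := dd (A.E p) / 2 with hR
    have hR0 : 0 < R := by rw [hR]; linarith
    obtain ⟨M, hM⟩ := hbd (A.sb p R) (A.isCompact_sb p (by rw [hR]; linarith))
    have hM0 : 0 ≤ M := by
      have := hM 0 (A.sec p (A.E p)) ⟨_, mem_closedBall_self hR0.le, rfl⟩
      exact (norm_nonneg _).trans this
    refine mon_aux1 (C := 8 * M / R) (isCompact_closedBall _ _) (by positivity) ?_
      fun m _ => hξ _
    intro n m₁ hm₁ m₂ hm₂
    have hsub : closedBall (A.E p) (dd (A.E p) / 8) ⊆ ball (A.E p) (R / 2) := by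
      apply closedBall_subset_ball
      rw [hR]
      linarith
    have := h2 (ℂ × ℂ) (fun m => f n (A.sec p m)) (A.E p) R M hR0
      (((hf n).differentiableOn_sec p).mono (ball_subset_ball (by rw [hR]; linarith)))
      (fun m' hm' => hM n _ ⟨m', ball_subset_closedBall hm', rfl⟩) m₁ (hsub hm₁) m₂ (hsub hm₂)
    rw [dist_eq_norm, dist_eq_norm]
    exact this
  refine ⟨ξ, ?_, ?_⟩
  · intro p
    have hd := A.dd_pos p
    have hdiff := h1 (ℂ × ℂ) ℕ (l : Filter ℕ) (fun n m => f n (A.sec p m))
      (fun m => ξ (A.sec p m)) (ball (A.E p) (dd (A.E p) / 8)) l.neBot isOpen_ball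
      (Eventually.of_forall fun n =>
        ((hf n).differentiableOn_sec p).mono (ball_subset_ball (by linarith)))
      ((hunif p).mono ball_subset_closedBall).tendstoLocallyUniformlyOn
    exact hdiff.differentiableAt (ball_mem_nhds _ (by positivity))
  · rw [Metric.tendstoLocallyUniformly_iff]
    intro ε hε p
    have hd := A.dd_pos p
    refine ⟨A.sb p (dd (A.E p) / 8), A.sb_mem_nhds p (by positivity), ?_⟩
    have := Metric.tendstoUniformlyOn_iff.mp (hunif p) ε hε
    filter_upwards [this] with n hn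
    rintro _ ⟨m, hm, rfl⟩
    exact hn m hm

end Pool.Agent.H63.TC
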