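import Pool.Agent.H63.TC.Stmts

/-!
# Project TC, module BPL: on every leaf the first component is an infinitesimal generator
-/

set_option autoImplicit false

open Complex Metric Set Filter Topology

namespace Pool.Agent.H63.TC

/-- Schwarz-Pick lemma with one point at the origin -/
theorem bpl_aux1 {φ : ℂ → ℂ} (hd : DifferentiableOn ℂ φ (ball 0 1))
    (hm : ∀ z ∈ ball (0 : ℂ) 1, ‖φ z‖ < 1) {z : ℂ} (hz : z ∈ ball (0 : ℂ) 1) :
    ‖φ z - φ 0‖ ≤ ‖z‖ * ‖1 - (starRingEnd ℂ) (φ 0) * φ z‖ := by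
  have h0 : (0 : ℂ) ∈ ball (0 : ℂ) 1 := mem_ball_self one_pos
  have hden : ∀ w ∈ ball (0 : ℂ) 1, 1 - (starRingEnd ℂ) (φ 0) * φ w ≠ 0 := by
    intro w hw h
    have h1 : ‖(starRingEnd ℂ) (φ 0) * φ w‖ = 1 := by
      rw [← sub_eq_zero.mp h, norm_one]
    rw [norm_mul, RCLike.norm_conj] at h1
    have h2 := hm 0 h0
    have h3 := hm w hw
    nlinarith [norm_nonneg (φ 0), norm_nonneg (φ w)]
  have hg : DifferentiableOn ℂ (fun w => (φ w - φ 0) / (1 - (starRingEnd ℂ) (φ 0) * φ w))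
      (ball 0 1) := by
    refine DifferentiableOn.div (hd.sub_const _) ?_ hden
    exact (differentiableOn_const _).sub ((differentiableOn_const _).mul hd)
  have hmaps : MapsTo (fun w => (φ w - φ 0) / (1 - (starRingEnd ℂ) (φ 0) * φ w))
      (ball (0 : ℂ) 1) (ball 0 1) := by
    intro w hw
    rw [mem_ball_zero_iff, norm_div, div_lt_one (norm_pos_iff.mpr (hden w hw))]
    have h2 := hm 0 h0
    have h3 := hm w hw
    apply lt_of_pow_lt_pow_left₀ 2 (norm_nonneg _)
    rw [← Complex.normSq_eq_norm_sq, ← Complex.normSq_eq_norm_sq]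
    have e1 : Complex.normSq (φ 0) < 1 := by
      rw [Complex.normSq_eq_norm_sq]
      nlinarith [norm_nonneg (φ 0)]
    have e2 : Complex.normSq (φ w) < 1 := by
      rw [Complex.normSq_eq_norm_sq]
      nlinarith [norm_nonneg (φ w)]
    rw [Complex.normSq_apply] at e1 e2 ⊢
    rw [Complex.normSq_apply]
    simp only [Complex.sub_re, Complex.sub_im, Complex.mul_re, Complex.mul_im, Complex.conj_re,
      Complex.conj_im, Complex.one_re, Complex.one_im]
    nlinarith [mul_pos (sub_pos.mpr e1) (sub_pos.mpr e2)]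
  have h4 := Complex.norm_le_norm_of_mapsTo_ball hg (hmaps.mono_right ball_subset_closedBall) (by simp)
    (mem_ball_zero_iff.mp hz)
  rw [norm_div, div_le_iff₀ (norm_pos_iff.mpr (hden z hz))] at h4
  exact h4

/-- the limit of the Schwarz-Pick inequality -/
theorem bpl_aux2 {z f0 fz : ℂ} {s : ℕ → ℝ} {u v : ℕ → ℂ} (hs : ∀ n, 0 < s n)
    (hs0 : Tendsto s atTop (𝓝 0)) (hu : Tendsto u atTop (𝓝 f0)) (hv : Tendsto v atTop (𝓝 fz))
    (h : ∀ n, ‖(z + s n * v n) - s n * u n‖ ≤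
      ‖z‖ * ‖1 - (starRingEnd ℂ) (s n * u n) * (z + s n * v n)‖) :
    0 ≤ ((f0 - (starRingEnd ℂ) f0 * z ^ 2 - fz) * (starRingEnd ℂ) z).re := by
  let g : ℝ × ℂ × ℂ → ℝ := fun q =>
    -((starRingEnd ℂ) z * (q.2.2 - q.2.1)).re - q.1 / 2 * Complex.normSq (q.2.2 - q.2.1) -
      Complex.normSq z * ((starRingEnd ℂ) q.2.1 * (z + q.1 * q.2.2)).re +
      q.1 / 2 * Complex.normSq z * Complex.normSq q.2.1 * Complex.normSq (z + q.1 * q.2.2)
  have hg : Continuous g := by
    have hc : Continuous (starRingEnd ℂ : ℂ → ℂ) := Complex.continuous_conj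
    have hn : Continuous Complex.normSq := Complex.continuous_normSq
    have hr : Continuous Complex.re := Complex.continuous_re
    have ho : Continuous Complex.ofReal := Complex.continuous_ofReal
    simp only [g]
    refine ((Continuous.sub (Continuous.sub (Continuous.neg (hr.comp ?_)) ?_) ?_).add ?_)
    · exact continuous_const.mul (by fun_prop)
    · exact (by fun_prop : Continuous fun q : ℝ × ℂ × ℂ => q.1 / 2).mul
        (hn.comp (by fun_prop))
    · refine continuous_const.mul (hr.comp ?_)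
      exact (hc.comp (by fun_prop)).mul (by fun_prop)
    · refine Continuous.mul (Continuous.mul (Continuous.mul (by fun_prop) continuous_const)
        (hn.comp (by fun_prop))) (hn.comp (by fun_prop))
  have hlim : Tendsto (fun n => g (s n, u n, v n)) atTop (𝓝 (g (0, f0, fz))) :=
    (hg.tendsto _).comp (hs0.prodMk_nhds (hu.prodMk_nhds hv))
  have hpos : ∀ n, 0 ≤ g (s n, u n, v n) := by
    intro n
    have h1 := h n
    have h2 := pow_le_pow_left₀ (norm_nonneg _) h1 2
    rw [mul_pow, ← Complex.normSq_eq_norm_sq, ← Complex.normSq_eq_norm_sq,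
      ← Complex.normSq_eq_norm_sq] at h2
    have hsn := hs n
    have h3 : 2 * s n * g (s n, u n, v n) = Complex.normSq z *
        Complex.normSq (1 - (starRingEnd ℂ) (s n * u n) * (z + s n * v n)) -
        Complex.normSq ((z + s n * v n) - s n * u n) := by
      simp only [g, Complex.normSq_apply, Complex.sub_re, Complex.sub_im, Complex.mul_re,
        Complex.mul_im, Complex.conj_re, Complex.conj_im, Complex.one_re, Complex.one_im,
        Complex.add_re, Complex.add_im, Complex.ofReal_re, Complex.ofReal_im]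
      ring
    have h4 : 0 ≤ 2 * s n * g (s n, u n, v n) := by rw [h3]; linarith
    by_contra hcon
    push Not at hcon
    nlinarith
  have h5 := ge_of_tendsto' hlim hpos
  have h6 : g (0, f0, fz) = ((f0 - (starRingEnd ℂ) f0 * z ^ 2 - fz) * (starRingEnd ℂ) z).re := by
    simp only [g, Complex.normSq_apply, Complex.sub_re, Complex.sub_im, Complex.mul_re,
      Complex.mul_im, Complex.conj_re, Complex.conj_im, pow_two,
      Complex.add_re, Complex.add_im, Complex.ofReal_re, Complex.ofReal_im,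
      zero_mul, add_zero, zero_div]
    ring
  rw [← h6]
  exact h5

theorem bpl_cay_im {τ₀ z : ℂ} (h : 0 < τ₀.im) (hz : z ∈ ball (0 : ℂ) 1) :
    0 < (cay τ₀ z).im := by
  have h1 : Complex.normSq z < 1 := by
    rw [mem_ball_zero_iff] at hz
    rw [Complex.normSq_eq_norm_sq]
    nlinarith [norm_nonneg z]
  have hne : 1 - z ≠ 0 := by
    intro e
    have : z = 1 := (sub_eq_zero.mp e).symm
    rw [this] at h1
    simp at h1
  have h2 : 0 < Complex.normSq (1 - z) := Complex.normSq_pos.mpr hne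
  have h3 : (cay τ₀ z).im = τ₀.im * (1 - Complex.normSq z) / Complex.normSq (1 - z) := by
    unfold cay
    rw [Complex.div_im, ← sub_div]
    congr 1
    simp only [Complex.normSq_apply, Complex.sub_re, Complex.sub_im, Complex.mul_re,
      Complex.mul_im, Complex.conj_re, Complex.conj_im, Complex.one_re, Complex.one_im]
    ring
  rw [h3]
  have : 0 < 1 - Complex.normSq z := by linarith
  positivity

/-- the inverse of `cay τ₀` -/
noncomputable def bplInv (τ₀ τ : ℂ) : ℂ := (τ - τ₀) / (τ - (starRingEnd ℂ) τ₀)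

theorem bpl_ne {τ₀ τ : ℂ} (h : 0 < τ₀.im) (hτ : 0 < τ.im) : τ - (starRingEnd ℂ) τ₀ ≠ 0 := by
  intro e
  have := congrArg Complex.im e
  simp only [Complex.sub_im, Complex.conj_im, Complex.zero_im] at this
  linarith

theorem bpl_inv_lt {τ₀ τ : ℂ} (h : 0 < τ₀.im) (hτ : 0 < τ.im) : ‖bplInv τ₀ τ‖ < 1 := by
  unfold bplInv
  rw [norm_div, div_lt_one (norm_pos_iff.mpr (bpl_ne h hτ))]
  apply lt_of_pow_lt_pow_left₀ 2 (norm_nonneg _)
  rw [← Complex.normSq_eq_norm_sq, ← Complex.normSq_eq_norm_sq]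
  simp only [Complex.normSq_apply, Complex.sub_re, Complex.sub_im, Complex.conj_re,
    Complex.conj_im]
  nlinarith [mul_pos h hτ]

theorem bpl_inv_deriv {τ₀ τ : ℂ} (h : 0 < τ₀.im) (hτ : 0 < τ.im) :
    HasDerivAt (bplInv τ₀) ((2 * I * τ₀.im) / (τ - (starRingEnd ℂ) τ₀) ^ 2) τ := by
  have h1 : HasDerivAt (fun τ : ℂ => τ - τ₀) 1 τ := (hasDerivAt_id τ).sub_const _
  have h2 : HasDerivAt (fun τ : ℂ => τ - (starRingEnd ℂ) τ₀) 1 τ := (hasDerivAt_id τ).sub_const _
  have h3 := h1.div h2 (bpl_ne h hτ)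
  refine h3.congr_deriv ?_
  congr 1
  have h4 : τ₀ - (starRingEnd ℂ) τ₀ = 2 * I * τ₀.im := by
    rw [Complex.sub_conj]
    push_cast
    ring
  rw [← h4]
  ring

theorem bpl_one_sub {z : ℂ} (hz : z ∈ ball (0 : ℂ) 1) : 1 - z ≠ 0 := by
  intro e
  have : z = 1 := (sub_eq_zero.mp e).symm
  rw [this] at hz
  simp at hz

theorem bpl_cay_sub {τ₀ z : ℂ} (hz : z ∈ ball (0 : ℂ) 1) :
    cay τ₀ z - (starRingEnd ℂ) τ₀ = (2 * I * τ₀.im) / (1 - z) := by
  have h1 := bpl_one_sub hz
  have h4 : τ₀ - (starRingEnd ℂ) τ₀ = 2 * I * τ₀.im := by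
    rw [Complex.sub_conj]
    push_cast
    ring
  rw [← h4]
  unfold cay
  field_simp
  ring

theorem bpl_inv_cay {τ₀ z : ℂ} (h : 0 < τ₀.im) (hz : z ∈ ball (0 : ℂ) 1) :
    bplInv τ₀ (cay τ₀ z) = z := by
  have h1 := bpl_one_sub hz
  have h2 : (τ₀.im : ℂ) ≠ 0 := by exact_mod_cast h.ne'
  unfold bplInv
  rw [bpl_cay_sub hz]
  have h4 : τ₀ - (starRingEnd ℂ) τ₀ = 2 * I * τ₀.im := by
    rw [Complex.sub_conj]
    push_cast
    ring
  have h5 : cay τ₀ z - τ₀ = z * (2 * I * τ₀.im) / (1 - z) := by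
    rw [← h4]
    unfold cay
    field_simp
    ring
  rw [h5]
  have h6 : (2 * I * τ₀.im : ℂ) ≠ 0 := mul_ne_zero (mul_ne_zero two_ne_zero I_ne_zero) h2
  field_simp

theorem bpl (h1 : ChoStmt) (h2 : DerStmt) (h3 : WhlStmt) (h4 : PhdStmt) (h5 : LmdStmt) :
    BplStmt := by
  intro V _ A W ξ L a b τ₀ hξ hτ₀ hL hWL
  have hHo : IsOpen {τ : ℂ | 0 < τ.im} := isOpen_lt continuous_const Complex.continuous_im
  have hcay : ∀ w ∈ ball (0 : ℂ) 1, DifferentiableAt ℂ (cay τ₀) w := by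
    intro w hw
    unfold cay
    exact DifferentiableAt.div (by fun_prop) (by fun_prop) (bpl_one_sub hw)
  -- the leaf in the disc
  have hjW : ∀ w ∈ ball (0 : ℂ) 1, W.W (L (cay τ₀ w)) = (cay τ₀ w, a * cay τ₀ w + b) :=
    fun w hw => hWL _ (bpl_cay_im hτ₀ hw)
  have hjc : ∀ w ∈ ball (0 : ℂ) 1, ContinuousAt (fun w => L (cay τ₀ w)) w := by
    intro w hw
    have c1 : ContinuousAt L (cay τ₀ w) := hL.continuousAt (hHo.mem_nhds (bpl_cay_im hτ₀ hw))
    exact ContinuousAt.comp (f := cay τ₀) (g := L) c1 (hcay w hw).continuousAt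
  have hjE : ∀ w ∈ ball (0 : ℂ) 1, DifferentiableAt ℂ (fun w => A.E (L (cay τ₀ w))) w := by
    intro w hw
    have hev : (fun w => A.E (L (cay τ₀ w))) =ᶠ[𝓝 w]
        fun w => Phi (cay τ₀ w, a * cay τ₀ w + b) := by
      filter_upwards [isOpen_ball.mem_nhds hw] with w' hw'
      rw [← W.Phi_W, hjW w' hw']
    have hY : (cay τ₀ w, (a : ℂ) * cay τ₀ w + b) ∈ YY := by
      rw [← hjW w hw]
      exact W.mem _
    obtain ⟨-, -, -, -, -, Lf, hLf, -⟩ := h4 _ hY
    have d1 : DifferentiableAt ℂ (fun w => (cay τ₀ w, (a : ℂ) * cay τ₀ w + b)) w :=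
      (hcay w hw).prodMk (((hcay w hw).const_mul _).add_const _)
    have d2 : DifferentiableAt ℂ (fun w => Phi (cay τ₀ w, (a : ℂ) * cay τ₀ w + b)) w :=
      DifferentiableAt.comp (g := Phi) (f := fun w => (cay τ₀ w, (a : ℂ) * cay τ₀ w + b)) w
        hLf.hasFDerivAt.differentiableAt d1
    exact d2.congr_of_eventuallyEq hev
  have hWhol := (h3 V A W).1
  have hξhol := h1 V A ξ hξ
  refine ⟨?_, ?_⟩
  · -- differentiability
    intro w hw
    apply DifferentiableAt.differentiableWithinAt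
    have d1 : DifferentiableAt ℂ (fun w => ξ (L (cay τ₀ w))) w :=
      hξhol.comp_differentiableAt (hjc w hw) (hjE w hw)
    have d2 : DifferentiableAt ℂ (fun w => deriv lam (cay τ₀ w)) w := by
      have d3 : DifferentiableOn ℂ lam {τ : ℂ | 0 < τ.im} := fun τ hτ =>
        (h5 τ hτ).1.differentiableWithinAt
      have d4 := (d3.deriv hHo).differentiableAt (hHo.mem_nhds (bpl_cay_im hτ₀ hw))
      exact DifferentiableAt.comp (g := deriv lam) (f := cay τ₀) w d4 (hcay w hw)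
    have hne : deriv lam (cay τ₀ w) ≠ 0 := (h5 _ (bpl_cay_im hτ₀ hw)).2
    have d5 : DifferentiableAt ℂ (fun z => (ξ (L (cay τ₀ z))).1 / deriv lam (cay τ₀ z) *
        (1 - z) ^ 2 / (2 * I * τ₀.im)) w := by
      refine DifferentiableAt.div_const (DifferentiableAt.mul ?_ (by fun_prop)) _
      exact d1.fst.div d2 hne
    refine d5.congr_of_eventuallyEq ?_
    filter_upwards [isOpen_ball.mem_nhds hw] with w' hw'
    simp only [Ell.hh, hjW w' hw']
  · intro z hz
    have h0 : (0 : ℂ) ∈ ball (0 : ℂ) 1 := mem_ball_self one_pos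
    -- the approximating self-maps
    have hK : IsCompact ({L (cay τ₀ 0), L (cay τ₀ z)} : Set V) := by
      exact (Set.toFinite _).isCompact
    choose F hF s hs hsε hcl hbd using fun n : ℕ => hξ _ hK (1 / ((n : ℝ) + 1)) (by positivity)
    have hlim0 : Tendsto (fun n : ℕ => 1 / ((n : ℝ) + 1)) atTop (𝓝 0) :=
      tendsto_one_div_add_atTop_nhds_zero_nat
    have hs0 : Tendsto s atTop (𝓝 0) :=
      tendsto_of_tendsto_of_tendsto_of_le_of_le tendsto_const_nhds hlim0
        (fun n => (hs n).le) (fun n => (hsε n).le)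
    -- the functions of the disc
    have hφd : ∀ n, DifferentiableOn ℂ
        (fun w => bplInv τ₀ (W.W (F n (L (cay τ₀ w)))).1) (ball 0 1) := by
      intro n w hw
      apply DifferentiableAt.differentiableWithinAt
      have d1 : DifferentiableAt ℂ (fun w => W.W (F n (L (cay τ₀ w)))) w :=
        (hWhol.comp_self (hF n)).comp_differentiableAt (hjc w hw) (hjE w hw)
      have d2 := (bpl_inv_deriv hτ₀ (W.mem (F n (L (cay τ₀ w)))).1).differentiableAt
      exact DifferentiableAt.comp (g := bplInv τ₀)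
        (f := fun w => (W.W (F n (L (cay τ₀ w)))).1) w d2 d1.fst
    have hφm : ∀ n, ∀ w ∈ ball (0 : ℂ) 1, ‖bplInv τ₀ (W.W (F n (L (cay τ₀ w)))).1‖ < 1 :=
      fun n w _ => bpl_inv_lt hτ₀ (W.mem _).1
    -- asymptotics
    have hasy : ∀ w ∈ ball (0 : ℂ) 1, L (cay τ₀ w) ∈ ({L (cay τ₀ 0), L (cay τ₀ z)} : Set V) →
        Tendsto (fun n => ((s n : ℂ))⁻¹ * (bplInv τ₀ (W.W (F n (L (cay τ₀ w)))).1 - w)) atTop
          (𝓝 (W.hh ξ (L (cay τ₀ w)) * (1 - w) ^ 2 / (2 * I * τ₀.im))) := by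
      intro w hw hmem
      have hf : A.Hol (fun p => bplInv τ₀ (W.W p).1) := by
        intro p
        have d2 := (bpl_inv_deriv hτ₀ (W.mem (A.sec p (A.E p))).1).differentiableAt
        exact DifferentiableAt.comp (g := bplInv τ₀)
          (f := fun m => (W.W (A.sec p m)).1) (A.E p) d2 (hWhol p).fst
      have hE : Tendsto (fun n => ((s n : ℂ))⁻¹ • (A.E (F n (L (cay τ₀ w))) -
          A.E (L (cay τ₀ w)))) atTop (𝓝 (ξ (L (cay τ₀ w)))) := by
        rw [tendsto_iff_norm_sub_tendsto_zero]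
        refine squeeze_zero (fun n => norm_nonneg _) (fun n => ?_) hlim0
        have hsC : (s n : ℂ) ≠ 0 := by exact_mod_cast (hs n).ne'
        have e1 : ((s n : ℂ))⁻¹ • (A.E (F n (L (cay τ₀ w))) - A.E (L (cay τ₀ w))) -
            ξ (L (cay τ₀ w)) = ((s n : ℂ))⁻¹ • (A.E (F n (L (cay τ₀ w))) - A.E (L (cay τ₀ w)) -
              (s n : ℂ) • ξ (L (cay τ₀ w))) := by
          rw [smul_sub _ (_ - _), smul_smul, inv_mul_cancel₀ hsC, one_smul]
        rw [e1, norm_smul, norm_inv, Complex.norm_real, Real.norm_of_nonneg (hs n).le,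
          inv_mul_le_iff₀ (hs n), mul_comm]
        exact hbd n _ hmem
      have hder := h2 V A ℂ (fun p => bplInv τ₀ (W.W p).1) ℕ atTop
        (fun n => F n (L (cay τ₀ w))) s (ξ (L (cay τ₀ w))) (L (cay τ₀ w)) hf hs hs0
        (Eventually.of_forall fun n => (hcl n _ hmem).2.2) hE
      have hchain : HasFDerivAt (fun m => bplInv τ₀ (W.W (A.sec (L (cay τ₀ w)) m)).1)
          (((2 * I * τ₀.im) / ((W.W (L (cay τ₀ w))).1 - (starRingEnd ℂ) τ₀) ^ 2) •
            ((ContinuousLinearMap.fst ℂ ℂ ℂ).comp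
              (fderiv ℂ (fun m => W.W (A.sec (L (cay τ₀ w)) m)) (A.E (L (cay τ₀ w))))))
          (A.E (L (cay τ₀ w))) := by
        have c1 := (hWhol (L (cay τ₀ w))).hasFDerivAt.fst
        have c2 := bpl_inv_deriv hτ₀ (W.mem (L (cay τ₀ w))).1
        have hp : A.sec (L (cay τ₀ w)) (A.E (L (cay τ₀ w))) = L (cay τ₀ w) := A.sec_self _
        have c3 : HasDerivAt (bplInv τ₀)
            ((2 * I * τ₀.im) / ((W.W (L (cay τ₀ w))).1 - (starRingEnd ℂ) τ₀) ^ 2)
            (W.W (A.sec (L (cay τ₀ w)) (A.E (L (cay τ₀ w))))).1 := by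
          rw [hp]; exact c2
        exact HasDerivAt.comp_hasFDerivAt (A.E (L (cay τ₀ w))) c3 c1
      rw [hchain.fderiv] at hder
      simp only [ContinuousLinearMap.smul_apply, ContinuousLinearMap.comp_apply,
        ContinuousLinearMap.coe_fst', smul_eq_mul] at hder
      rw [(h3 V A W).2] at hder
      simp only [hjW w hw, bpl_inv_cay hτ₀ hw] at hder
      convert hder using 2
      have hne := bpl_one_sub hw
      have h6 : (2 * I * τ₀.im : ℂ) ≠ 0 :=
        mul_ne_zero (mul_ne_zero two_ne_zero I_ne_zero) (by exact_mod_cast hτ₀.ne')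
      simp only [Ell.hh, hjW w hw, bpl_cay_sub hw]
      field_simp
    have a0 := hasy 0 h0 (by simp)
    have az := hasy z hz (by simp)
    refine bpl_aux2 (z := z) hs hs0 a0 az fun n => ?_
    have hsC : (s n : ℂ) ≠ 0 := by exact_mod_cast (hs n).ne'
    have e1 : (s n : ℂ) * (((s n : ℂ))⁻¹ * (bplInv τ₀ (W.W (F n (L (cay τ₀ 0)))).1 - 0)) =
        bplInv τ₀ (W.W (F n (L (cay τ₀ 0)))).1 := by
      rw [sub_zero, ← mul_assoc, mul_inv_cancel₀ hsC, one_mul]
    have e2 : z + (s n : ℂ) * (((s n : ℂ))⁻¹ * (bplInv τ₀ (W.W (F n (L (cay τ₀ z)))).1 - z)) =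
        bplInv τ₀ (W.W (F n (L (cay τ₀ z)))).1 := by
      rw [← mul_assoc, mul_inv_cancel₀ hsC, one_mul]
      ring
    rw [e1, e2]
    exact bpl_aux1 (hφd n) (hφm n) hz

end Pool.Agent.H63.TC
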