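import Pool.Agent.H63.TC.Stmts

/-!
# Project TC, module NZE: nontrivial self-maps converging to the identity produce a vector field
-/

set_option autoImplicit false

open Complex Metric Set Filter Topology

namespace Pool.Agent.H63.TC

theorem nze (h1 : IdsStmt) (h2 : HarStmt) (h3 : MonStmt) : NzeStmt := by
  intro V _ _ A F hF hto hne
  obtain ⟨p₀, -⟩ := hne 0
  have hd := A.dd_pos p₀
  obtain ⟨K₀, hK₀, hnh⟩ : ∃ K₀ : Set V, IsCompact K₀ ∧ K₀ ∈ 𝓝 p₀ :=
    ⟨A.sb p₀ (dd (A.E p₀) / 2), A.isCompact_sb p₀ (by linarith), A.sb_mem_nhds p₀ (by linarith)⟩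
  have hint : (interior K₀).Nonempty := ⟨p₀, mem_interior_iff_mem_nhds.mpr hnh⟩
  have hp₀ : p₀ ∈ K₀ := mem_of_mem_nhds hnh
  have hcE : ∀ n, Continuous (fun p => A.E (F n p) - A.E p) := fun n =>
    (A.cont_E.comp (hF n).1).sub A.cont_E
  have hmax : ∀ n, ∃ x ∈ K₀, ∀ y ∈ K₀, ‖A.E (F n y) - A.E y‖ ≤ ‖A.E (F n x) - A.E x‖ := fun n =>
    hK₀.exists_isMaxOn ⟨p₀, hp₀⟩ (hcE n).norm.continuousOn
  choose x hx hxmax using hmax
  obtain ⟨s, hsdef⟩ : ∃ s : ℕ → ℝ, ∀ n, s n = ‖A.E (F n (x n)) - A.E (x n)‖ := ⟨_, fun _ => rfl⟩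
  have hs0 : ∀ᶠ n in atTop, 0 < s n := by
    filter_upwards [hto K₀ hK₀ 1 one_pos] with n hn
    by_contra hcon
    have hz : s n = 0 := le_antisymm (not_lt.mp hcon) (by rw [hsdef]; exact norm_nonneg _)
    have hfix : ∀ p ∈ interior K₀, F n p = p := by
      intro p hp
      have hpK := interior_subset hp
      have h4 : ‖A.E (F n p) - A.E p‖ ≤ 0 := by
        have := hxmax n p hpK
        rw [← hsdef, hz] at this
        exact this
      have h5 : A.E (F n p) = A.E p := by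
        rw [← sub_eq_zero]
        exact norm_le_zero_iff.mp h4
      have h6 := (hn p hpK).2.2
      rw [h5, A.sec_self] at h6
      exact h6.symm
    obtain ⟨p, hp⟩ := hne n
    exact hp (h1 V A (F n) (interior K₀) (hF n) isOpen_interior hint hfix p)
  have hsc : ∀ c > 0, ∀ᶠ n in atTop, s n ≤ c := by
    intro c hc
    filter_upwards [hto K₀ hK₀ c hc] with n hn
    rw [hsdef]
    exact (hn _ (hx n)).1
  have hnorm : ∀ n p, ‖((s n : ℂ))⁻¹ • (A.E (F n p) - A.E p)‖ =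
      (s n)⁻¹ * ‖A.E (F n p) - A.E p‖ := by
    intro n p
    have h0 : 0 ≤ s n := by rw [hsdef]; exact norm_nonneg _
    rw [norm_smul, norm_inv, Complex.norm_real, Real.norm_of_nonneg h0]
  have hHol : ∀ n, A.Hol (fun p => ((s n : ℂ))⁻¹ • (A.E (F n p) - A.E p)) := by
    intro n p
    exact (((hF n).2 p).sub (A.hol_E p)).const_smul ((s n : ℂ))⁻¹
  have hbd : ∀ K, IsCompact K → ∃ M : ℝ, ∀ n, ∀ p ∈ K,
      ‖((s n : ℂ))⁻¹ • (A.E (F n p) - A.E p)‖ ≤ M := by
    intro K hK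
    obtain ⟨C, hC, c, hc, hH⟩ := h2 V A K₀ K hint hK
    have hev : ∀ᶠ n in atTop, ∀ p ∈ K, ‖((s n : ℂ))⁻¹ • (A.E (F n p) - A.E p)‖ ≤ C := by
      filter_upwards [hs0, hsc c hc, hto K₀ hK₀ 1 one_pos] with n hn1 hn2 hn3 p hp
      have hcl : A.Close K₀ (s n) (F n) := by
        intro q hq
        refine ⟨?_, (hn3 q hq).2⟩
        rw [hsdef]
        exact hxmax n q hq
      have h4 := (hH (s n) hn1 hn2 (F n) (hF n) hcl p hp).1
      rw [hnorm, inv_mul_le_iff₀ hn1, mul_comm]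
      exact h4
    obtain ⟨N, hN⟩ := eventually_atTop.mp hev
    have hB : ∀ n, ∃ B : ℝ, ∀ p ∈ K, ‖((s n : ℂ))⁻¹ • (A.E (F n p) - A.E p)‖ ≤ B := by
      intro n
      have hc2 : Continuous fun p => ((s n : ℂ))⁻¹ • (A.E (F n p) - A.E p) :=
        (hcE n).const_smul ((s n : ℂ))⁻¹
      obtain ⟨B, hB⟩ := hK.exists_bound_of_continuousOn hc2.continuousOn
      exact ⟨B, hB⟩
    choose B hB using hB
    refine ⟨C + ∑ i ∈ Finset.range N, |B i|, fun n p hp => ?_⟩
    have hsum : 0 ≤ ∑ i ∈ Finset.range N, |B i| := Finset.sum_nonneg fun i _ => abs_nonneg _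
    by_cases hn : N ≤ n
    · exact (hN n hn p hp).trans (by linarith)
    · have h4 : |B n| ≤ ∑ i ∈ Finset.range N, |B i| :=
        Finset.single_le_sum (f := fun i => |B i|) (fun i _ => abs_nonneg _)
          (Finset.mem_range.mpr (by omega))
      have h5 := hB n p hp
      have h6 := le_abs_self (B n)
      linarith
  obtain ⟨ξ, hξ, hlim⟩ := h3 V A (hyperfilter ℕ)
    (fun n p => ((s n : ℂ))⁻¹ • (A.E (F n p) - A.E p)) hHol hbd
  have hle : (hyperfilter ℕ : Filter ℕ) ≤ atTop := Nat.hyperfilter_le_atTop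
  have hunif : ∀ K, IsCompact K → ∀ ε > 0, ∀ᶠ n in (hyperfilter ℕ : Filter ℕ), ∀ p ∈ K,
      dist (ξ p) (((s n : ℂ))⁻¹ • (A.E (F n p) - A.E p)) < ε := by
    intro K hK ε hε
    have h4 := (tendstoLocallyUniformlyOn_iff_tendstoUniformlyOn_of_compact hK).mp
      (hlim.tendstoLocallyUniformlyOn)
    exact Metric.tendstoUniformlyOn_iff.mp h4 ε hε
  refine ⟨ξ, ?_, ?_⟩
  · intro K hK ε hε
    have e1 := hunif K hK ε hε
    have e2 := (hs0.filter_mono hle)
    have e3 := (hsc (ε / 2) (by positivity)).filter_mono hle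
    have e4 := (hto K hK ε hε).filter_mono hle
    obtain ⟨n, ⟨⟨n1, n2⟩, n3⟩, n4⟩ := (((e1.and e2).and e3).and e4).exists
    refine ⟨F n, hF n, s n, n2, by linarith, n4, fun p hp => ?_⟩
    have h4 := n1 p hp
    rw [dist_comm, dist_eq_norm] at h4
    have hsC : (s n : ℂ) ≠ 0 := by exact_mod_cast n2.ne'
    have h5 : A.E (F n p) - A.E p - (s n : ℂ) • ξ p =
        (s n : ℂ) • (((s n : ℂ))⁻¹ • (A.E (F n p) - A.E p) - ξ p) := by
      rw [smul_sub, smul_smul, mul_inv_cancel₀ hsC, one_smul]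
    rw [h5, norm_smul, Complex.norm_real, Real.norm_of_nonneg n2.le, mul_comm]
    exact mul_le_mul_of_nonneg_right h4.le n2.le
  · by_contra hcon
    push Not at hcon
    have e1 := hunif K₀ hK₀ (1 / 2) (by norm_num)
    have e2 := (hs0.filter_mono hle)
    obtain ⟨n, n1, n2⟩ := (e1.and e2).exists
    have h4 := n1 _ (hx n)
    rw [hcon, dist_eq_norm, zero_sub, norm_neg, hnorm, ← hsdef, inv_mul_cancel₀ n2.ne'] at h4
    norm_num at h4

end Pool.Agent.H63.TC
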